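import Mathlib

/-!
# Infinitely many permutation classes are both 1-amalgamable and splittable (MP_80b08f_co, Q1)

For every `K ≥ 2` we build a set of points `Vx` with two linear orders (the vertices of the regular
tree of infinite degree with a fixed end; the descendants of the `i`-th child of a vertex lie to the
south-west of exactly the `K` children `i, …, i + K - 1`).  The structure has a transitive group of
automorphisms, so the class of its finite patterns is 1-amalgamable; colouring a vertex by its index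
modulo `K` makes every colour class avoid 132, so the class is splittable.
-/

namespace Pool.Agent.Results.MP_80b08f_co.InfinitelyMany

/-- A permutation: its size `n` and the bijection sending a position to the value there. -/
abbrev Pm := Σ n : ℕ, Equiv.Perm (Fin n)

/-- `f` is an embedding (an occurrence) of `α` in `β`: it preserves the position order and the
value order (both are linear orders, so `f` is injective). -/
def IsEmb (α β : Pm) (f : Fin α.1 → Fin β.1) : Prop :=
  (∀ i j, i < j → f i < f j) ∧ ∀ i j, α.2 i < α.2 j → β.2 (f i) < β.2 (f j)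

/-- Permutation classes: sets of permutations closed under containment. -/
def IsClass (C : Set Pm) : Prop := ∀ β ∈ C, ∀ α : Pm, ∀ f, IsEmb α β f → α ∈ C

/-- `C` is `α`-amalgamable. -/
def Amalgamable (C : Set Pm) (α : Pm) : Prop :=
  ∀ β ∈ C, ∀ γ ∈ C, ∀ f g, IsEmb α β f → IsEmb α γ g →
    ∃ δ ∈ C, ∃ f' g', IsEmb β δ f' ∧ IsEmb γ δ g' ∧ ∀ i, f' (f i) = g' (g i)

/-- `C` is 1-amalgamable: `α`-amalgamable for every `α ∈ C` of size at most 1. -/
def OneAmalgamable (C : Set Pm) : Prop := ∀ α ∈ C, α.1 ≤ 1 → Amalgamable C α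

/-- The merge `A 0 ⊙ A 1 ⊙ … ⊙ A (r-1)`: the permutations whose entries can be coloured with `r`
colours such that the entries of colour `c` form a pattern in `A c`. -/
def Merge {r : ℕ} (A : Fin r → Set Pm) : Set Pm :=
  {π | ∃ col : Fin π.1 → Fin r, ∀ c, ∃ α ∈ A c, ∃ f, IsEmb α π f ∧ Set.range f = {i | col i = c}}

/-- `C` has a nontrivial splitting. -/
def Splittable (C : Set Pm) : Prop :=
  ∃ (r : ℕ) (A : Fin r → Set Pm), 0 < r ∧ (∀ c, IsClass (A c)) ∧ C ⊆ Merge A ∧ ∀ c, ¬ C ⊆ A c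

section gen
variable {M L₁ L₂ : Type*} [LinearOrder L₁] [LinearOrder L₂]

/-- The finite patterns of the points `M` with abscissa `p` and ordinate `q`. -/
def Age (p : M → L₁) (q : M → L₂) : Set Pm :=
  {π | ∃ e : Fin π.1 → M, (∀ i j, i < j → p (e i) < p (e j)) ∧
    ∀ i j, π.2 i < π.2 j → q (e i) < q (e j)}

theorem age_class (p : M → L₁) (q : M → L₂) : IsClass (Age p q) := by
  rintro β ⟨e, h1, h2⟩ α f ⟨hf1, hf2⟩
  exact ⟨fun i => e (f i), fun i j h => h1 _ _ (hf1 i j h), fun i j h => h2 _ _ (hf2 i j h)⟩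

/-- A finite set of points has a pattern. -/
theorem exists_perm (p : M → L₁) (q : M → L₂) (hp : Function.Injective p)
    (hq : Function.Injective q) (S : Set M) (hS : S.Finite) :
    ∃ (α : Pm) (e : Fin α.1 → M), Set.range e = S ∧ (∀ i j, i < j ↔ p (e i) < p (e j)) ∧
      ∀ i j, α.2 i < α.2 j ↔ q (e i) < q (e j) := by
  haveI := hS.fintype
  let o1 : LinearOrder S := LinearOrder.lift' (fun x : S => p x) (hp.comp Subtype.val_injective)
  let o2 : LinearOrder S := LinearOrder.lift' (fun x : S => q x) (hq.comp Subtype.val_injective)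
  let E1 := @monoEquivOfFin S _ o1 (Fintype.card S) rfl
  let E2 := @monoEquivOfFin S _ o2 (Fintype.card S) rfl
  have h1 : ∀ i j, i < j ↔ p (E1 i : M) < p (E1 j : M) := by
    intro i j
    exact (@OrderIso.lt_iff_lt _ _ _ o1.toPreorder E1 i j).symm
  have h2 : ∀ i j, i < j ↔ q (E2 i : M) < q (E2 j : M) := by
    intro i j
    exact (@OrderIso.lt_iff_lt _ _ _ o2.toPreorder E2 i j).symm
  refine ⟨⟨Fintype.card S, E1.toEquiv.trans E2.toEquiv.symm⟩, fun i => (E1 i : M), ?_, h1, ?_⟩
  · ext x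
    constructor
    · rintro ⟨i, rfl⟩
      exact (E1 i).2
    · intro hx
      obtain ⟨i, hi⟩ := E1.toEquiv.surjective ⟨x, hx⟩
      exact ⟨i, congrArg Subtype.val hi⟩
  · intro i j
    have := h2 (E2.toEquiv.symm (E1.toEquiv i)) (E2.toEquiv.symm (E1.toEquiv j))
    have e1 : ∀ y, E2 (E2.toEquiv.symm y) = y := fun y => E2.toEquiv.apply_symm_apply y
    rw [e1, e1] at this
    exact this

theorem age_one (p : M → L₁) (q : M → L₂) (hp : Function.Injective p)
    (hq : Function.Injective q)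
    (htr : ∀ a b : M, ∃ φ : M → M, φ b = a ∧ (∀ x y, p x < p y → p (φ x) < p (φ y)) ∧
      ∀ x y, q x < q y → q (φ x) < q (φ y)) : OneAmalgamable (Age p q) := by
  rintro α - hα β ⟨eb, hb1, hb2⟩ γ ⟨ec, hc1, hc2⟩ f g hf hg
  obtain ⟨φ, hφ, hφ1, hφ2⟩ : ∃ φ : M → M, (∀ i, φ (ec (g i)) = eb (f i)) ∧
      (∀ x y, p x < p y → p (φ x) < p (φ y)) ∧ ∀ x y, q x < q y → q (φ x) < q (φ y) := by
    rcases Nat.eq_zero_or_pos α.1 with h0 | h0
    · refine ⟨id, fun i => absurd i.2 (by omega), fun x y h => h, fun x y h => h⟩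
    · obtain ⟨φ, h, h1, h2⟩ := htr (eb (f ⟨0, h0⟩)) (ec (g ⟨0, h0⟩))
      refine ⟨φ, fun i => ?_, h1, h2⟩
      have : i = ⟨0, h0⟩ := Fin.ext (by have := i.2; simp only; omega)
      rw [this, h]
  obtain ⟨δ, ed, hr, hd1, hd2⟩ := exists_perm p q hp hq
    (Set.range eb ∪ Set.range (fun i => φ (ec i))) ((Set.finite_range _).union (Set.finite_range _))
  have hb : ∀ i, ∃ k, ed k = eb i := fun i => by
    have : eb i ∈ Set.range ed := by rw [hr]; exact Or.inl ⟨i, rfl⟩
    exact this
  have hc : ∀ i, ∃ k, ed k = φ (ec i) := fun i => by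
    have : φ (ec i) ∈ Set.range ed := by rw [hr]; exact Or.inr ⟨i, rfl⟩
    exact this
  choose f' hf' using hb
  choose g' hg' using hc
  refine ⟨δ, ⟨ed, fun i j h => (hd1 i j).1 h, fun i j h => (hd2 i j).1 h⟩, f', g', ⟨?_, ?_⟩,
    ⟨?_, ?_⟩, ?_⟩
  · intro i j h
    rw [hd1, hf', hf']
    exact hb1 i j h
  · intro i j h
    rw [hd2, hf', hf']
    exact hb2 i j h
  · intro i j h
    rw [hd1, hg', hg']
    exact hφ1 _ _ (hc1 i j h)
  · intro i j h
    rw [hd2, hg', hg']
    exact hφ2 _ _ (hc2 i j h)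
  · intro i
    have h : ed (f' (f i)) = ed (g' (g i)) := by rw [hf', hg', hφ]
    rcases lt_trichotomy (f' (f i)) (g' (g i)) with h1 | h1 | h1
    · have := (hd1 _ _).1 h1
      rw [h] at this
      exact absurd this (lt_irrefl _)
    · exact h1
    · have := (hd1 _ _).1 h1
      rw [h] at this
      exact absurd this (lt_irrefl _)

theorem age_split {r : ℕ} (hr : 0 < r) (p : M → L₁) (q : M → L₂) (hp : Function.Injective p)
    (hq : Function.Injective q) (col : M → Fin r)
    (hbad : ∃ z x y : M, p z < p x ∧ p x < p y ∧ q z < q y ∧ q y < q x)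
    (hav : ∀ z x y : M, p z < p x → p x < p y → q z < q y → q y < q x → col x = col y → False) :
    Splittable (Age p q) := by
  refine ⟨r, fun c => Age (fun v : {v : M // col v = c} => p v) (fun v => q v), hr,
    fun c => age_class _ _, ?_, ?_⟩
  · rintro π ⟨e, h1, h2⟩
    refine ⟨fun i => col (e i), fun c => ?_⟩
    obtain ⟨α, f, hf, hf1, hf2⟩ := exists_perm (M := Fin π.1) (fun i => i) (fun i => π.2 i)
      (fun a b h => h) π.2.injective {i | col (e i) = c} (Set.toFinite _)
    have hm : ∀ i, col (e (f i)) = c := fun i => by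
      have : f i ∈ {i | col (e i) = c} := by rw [← hf]; exact ⟨i, rfl⟩
      exact this
    refine ⟨α, ⟨fun i => ⟨e (f i), hm i⟩, ?_, ?_⟩, f,
      ⟨fun i j h => (hf1 i j).1 h, fun i j h => (hf2 i j).1 h⟩, hf⟩
    · intro i j h
      exact h1 _ _ ((hf1 i j).1 h)
    · intro i j h
      exact h2 _ _ ((hf2 i j).1 h)
  · intro c hc
    obtain ⟨z, x, y, b1, b2, b3, b4⟩ := hbad
    obtain ⟨α, e, he, he1, he2⟩ := exists_perm p q hp hq {z, x, y} (Set.toFinite _)
    have hα : α ∈ Age p q := ⟨e, fun i j h => (he1 i j).1 h, fun i j h => (he2 i j).1 h⟩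
    obtain ⟨e', h1, h2⟩ := hc hα
    have hz : z ∈ Set.range e := by rw [he]; simp
    have hx : x ∈ Set.range e := by rw [he]; simp
    have hy : y ∈ Set.range e := by rw [he]; simp
    obtain ⟨iz, rfl⟩ := hz
    obtain ⟨ix, rfl⟩ := hx
    obtain ⟨iy, rfl⟩ := hy
    refine hav (e' iz).1 (e' ix).1 (e' iy).1 (h1 _ _ ((he1 _ _).2 b1)) (h1 _ _ ((he1 _ _).2 b2))
      (h2 _ _ ((he2 _ _).2 b3)) (h2 _ _ ((he2 _ _).2 b4)) ?_
    rw [(e' ix).2, (e' iy).2]

end gen

/-- The vertices: a level `n` and an address, a finitely supported function vanishing beyond `n`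
(the ancestors of the vertex are the truncations of its address to smaller levels). -/
def Vx : Type := {v : ℤ × (ℤ →₀ ℤ) // ∀ k, v.1 < k → v.2 k = 0}

/-- The level. -/
def Vx.lv (v : Vx) : ℤ := v.1.1

/-- The address. -/
def Vx.ad (v : Vx) (k : ℤ) : ℤ := v.1.2 k

theorem Vx.ad_zero (v : Vx) {k : ℤ} (h : v.lv < k) : v.ad k = 0 := v.2 k h

theorem Vx.ext' {v w : Vx} (h1 : v.lv = w.lv) (h2 : ∀ k, k ≤ v.lv → v.ad k = w.ad k) : v = w := by
  apply Subtype.ext
  apply Prod.ext
  · exact h1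
  · ext k
    rcases le_or_gt k v.lv with h | h
    · exact h2 k h
    · have a := v.ad_zero h
      have b := w.ad_zero (k := k) (by rw [← h1]; exact h)
      show v.ad k = w.ad k
      rw [a, b]

/-- The two coordinates of a vertex are of the form `key c d`. -/
noncomputable def key (c d : ℤ) (v : Vx) : Lex (ℤ →₀ ℤ) :=
  toLex (c • v.1.2 + Finsupp.single v.1.1 d)

theorem key_apply (c d : ℤ) (v : Vx) (k : ℤ) :
    ofLex (key c d v) k = c * v.ad k + (if k = v.lv then d else 0) := by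
  show (c • v.1.2 + Finsupp.single v.1.1 d) k = _
  rw [Finsupp.add_apply, Finsupp.smul_apply, smul_eq_mul]
  by_cases h : k = v.lv
  · rw [if_pos h, h]
    show c * v.ad v.lv + (Finsupp.single v.lv d) v.lv = _
    rw [Finsupp.single_eq_same]
  · rw [if_neg h]
    show c * v.ad k + (Finsupp.single v.lv d) k = _
    rw [Finsupp.single_eq_of_ne h]

theorem key_lt {c d : ℤ} (hc : c = 2 ∨ c = -2) (hd : d % 2 = 1) (v w : Vx) :
    key c d v < key c d w ↔ ∃ k, k ≤ v.lv ∧ k ≤ w.lv ∧ (∀ j, j < k → v.ad j = w.ad j) ∧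
      c * v.ad k + (if k = v.lv then d else 0) < c * w.ad k + (if k = w.lv then d else 0) := by
  rw [Finsupp.Lex.lt_iff]
  constructor
  · rintro ⟨k, h1, h2⟩
    rw [key_apply, key_apply] at h2
    have h1' : ∀ j, j < k → c * v.ad j + (if j = v.lv then d else 0) =
        c * w.ad j + (if j = w.lv then d else 0) := by
      intro j hj
      have := h1 j hj
      rwa [key_apply, key_apply] at this
    have hv : k ≤ v.lv := by
      by_contra h
      push Not at h
      have e1 := h1' _ h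
      rw [if_pos rfl] at e1
      by_cases hw : v.lv = w.lv
      · rw [if_neg (by omega), if_neg (by omega), v.ad_zero h, w.ad_zero (by omega)] at h2
        exact lt_irrefl _ h2
      · rw [if_neg hw] at e1
        rcases hc with rfl | rfl <;> omega
    have hw : k ≤ w.lv := by
      by_contra h
      push Not at h
      have e1 := h1' _ h
      rw [if_pos (rfl : w.lv = w.lv)] at e1
      by_cases hw : w.lv = v.lv
      · omega
      · rw [if_neg hw] at e1
        rcases hc with rfl | rfl <;> omega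
    refine ⟨k, hv, hw, fun j hj => ?_, h2⟩
    have e1 := h1' j hj
    rw [if_neg (by omega), if_neg (by omega)] at e1
    rcases hc with rfl | rfl <;> omega
  · rintro ⟨k, hv, hw, h1, h2⟩
    refine ⟨k, fun j hj => ?_, ?_⟩
    · rw [key_apply, key_apply, h1 j hj, if_neg (by omega), if_neg (by omega)]
    · rw [key_apply, key_apply]
      exact h2

theorem key_inj {c d : ℤ} (hc : c = 2 ∨ c = -2) (hd : d % 2 = 1) :
    Function.Injective (key c d) := by
  intro v w h
  have h' : ∀ k, c * v.ad k + (if k = v.lv then d else 0) =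
      c * w.ad k + (if k = w.lv then d else 0) := by
    intro k
    rw [← key_apply, ← key_apply, h]
  have hl : v.lv = w.lv := by
    by_contra hne
    have := h' v.lv
    rw [if_pos rfl, if_neg hne] at this
    rcases hc with rfl | rfl <;> omega
  refine Vx.ext' hl fun k _ => ?_
  have := h' k
  rw [← hl] at this
  rcases hc with rfl | rfl <;> omega

/-- The abscissa. -/
noncomputable def px : Vx → Lex (ℤ →₀ ℤ) := key 2 1

/-- The ordinate. -/
noncomputable def qx (K : ℕ) : Vx → Lex (ℤ →₀ ℤ) := key (-2) (2 * K - 1)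

theorem hodd (K : ℕ) : (2 * (K : ℤ) - 1) % 2 = 1 := by omega

/-- North-east neighbours. -/
theorem ne_elim {K : ℕ} (hK : 1 ≤ K) {z x : Vx} (h1 : px z < px x) (h2 : qx K z < qx K x) :
    x.lv < z.lv ∧ (∀ j, j < x.lv → z.ad j = x.ad j) ∧ z.ad x.lv ≤ x.ad x.lv ∧
      x.ad x.lv < z.ad x.lv + K := by
  obtain ⟨k, a1, a2, a3, a4⟩ := (key_lt (Or.inl rfl) (by norm_num) z x).1 h1
  obtain ⟨l, b1, b2, b3, b4⟩ := (key_lt (Or.inr rfl) (hodd K) z x).1 h2
  have hkl : k = l := by
    rcases lt_trichotomy k l with h | h | h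
    · rw [b3 k h, if_neg (by omega), if_neg (by omega)] at a4
      exact absurd a4 (lt_irrefl _)
    · exact h
    · rw [a3 l h, if_neg (by omega), if_neg (by omega)] at b4
      exact absurd b4 (lt_irrefl _)
  subst hkl
  by_cases hz : k = z.lv
  · exfalso
    rw [if_pos hz] at a4 b4
    by_cases hx : k = x.lv
    · rw [if_pos hx] at a4 b4
      omega
    · rw [if_neg hx] at a4 b4
      omega
  · rw [if_neg hz] at a4 b4
    by_cases hx : k = x.lv
    · rw [if_pos hx] at a4 b4
      refine ⟨by omega, by rw [← hx]; exact a3, ?_, ?_⟩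
      · rw [← hx]; omega
      · rw [← hx]; omega
    · exfalso
      rw [if_neg hx] at a4 b4
      omega

theorem ne_intro {K : ℕ} {z x : Vx} (h1 : x.lv < z.lv) (h2 : ∀ j, j < x.lv → z.ad j = x.ad j)
    (h3 : z.ad x.lv ≤ x.ad x.lv) (h4 : x.ad x.lv < z.ad x.lv + K) :
    px z < px x ∧ qx K z < qx K x := by
  constructor
  · refine (key_lt (Or.inl rfl) (by norm_num) z x).2 ⟨x.lv, h1.le, le_rfl, h2, ?_⟩
    rw [if_neg (by omega), if_pos rfl]
    omega
  · refine (key_lt (Or.inr rfl) (hodd K) z x).2 ⟨x.lv, h1.le, le_rfl, h2, ?_⟩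
    rw [if_neg (by omega), if_pos rfl]
    omega

/-- Two points to the north-east of a common point, one to the north-west of the other one. -/
theorem level {K : ℕ} (hK : 1 ≤ K) {z x y : Vx} (h1 : px z < px x) (h2 : px x < px y)
    (h3 : qx K z < qx K y) (h4 : qx K y < qx K x) :
    x.lv = y.lv ∧ z.ad x.lv ≤ x.ad x.lv ∧ x.ad x.lv < y.ad x.lv ∧ y.ad x.lv < z.ad x.lv + K := by
  obtain ⟨a1, a2, a3, a4⟩ := ne_elim hK h1 (h3.trans h4)
  obtain ⟨b1, b2, b3, b4⟩ := ne_elim hK (h1.trans h2) h3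
  rcases lt_trichotomy x.lv y.lv with h | h | h
  · exfalso
    have e := b2 _ h
    have := (ne_intro (K := K) (z := y) (x := x) h (fun j hj => by rw [← b2 j (by omega), a2 j hj])
      (by rw [← e]; exact a3) (by rw [← e]; exact a4)).1
    exact lt_asymm h2 this
  · refine ⟨h, a3, ?_, by rw [h]; exact b4⟩
    obtain ⟨k, c1, c2, c3, c4⟩ := (key_lt (Or.inl rfl) (by norm_num) x y).1 h2
    rcases lt_or_eq_of_le c1 with hk | hk
    · rw [← a2 k hk, b2 k (by omega), if_neg (by omega), if_neg (by omega)] at c4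
      exact absurd c4 (lt_irrefl _)
    · subst hk
      rw [if_pos rfl, if_pos h] at c4
      omega
  · exfalso
    have e := a2 _ h
    have := (ne_intro (K := K) (z := x) (x := y) h (fun j hj => by rw [← a2 j (by omega), b2 j hj])
      (by rw [← e]; exact b3) (by rw [← e]; exact b4)).2
    exact lt_asymm h4 this

/-- The automorphism moving `b` to `a`. -/
noncomputable def mv (a b : Vx) (v : Vx) : Vx :=
  ⟨(v.1.1 + (a.1.1 - b.1.1), Finsupp.filter (fun k => k ≤ v.1.1 + (a.1.1 - b.1.1))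
    (v.1.2.equivMapDomain (Equiv.addRight (a.1.1 - b.1.1)) +
      (a.1.2 - b.1.2.equivMapDomain (Equiv.addRight (a.1.1 - b.1.1))))), by
    intro k hk
    rw [Finsupp.filter_apply, if_neg (not_le.2 hk)]⟩

theorem mv_lv (a b v : Vx) : (mv a b v).lv = v.lv + (a.lv - b.lv) := rfl

theorem mv_ad (a b v : Vx) {k : ℤ} (hk : k ≤ (mv a b v).lv) :
    (mv a b v).ad k = v.ad (k - (a.lv - b.lv)) + (a.ad k - b.ad (k - (a.lv - b.lv))) := by
  have hk' : k ≤ v.1.1 + (a.1.1 - b.1.1) := hk
  show (Finsupp.filter (fun k => k ≤ v.1.1 + (a.1.1 - b.1.1)) _) k = _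
  rw [Finsupp.filter_apply, if_pos hk']
  simp only [Finsupp.add_apply, Finsupp.sub_apply, Finsupp.equivMapDomain_apply,
    Equiv.addRight_symm, Equiv.coe_addRight]
  rw [← sub_eq_add_neg]
  rfl

theorem mv_self (a b : Vx) : mv a b b = a := by
  refine Vx.ext' (by rw [mv_lv]; ring) fun k hk => ?_
  rw [mv_ad _ _ _ hk]
  ring

theorem mv_key {c d : ℤ} (hc : c = 2 ∨ c = -2) (hd : d % 2 = 1) (a b v w : Vx)
    (h : key c d v < key c d w) : key c d (mv a b v) < key c d (mv a b w) := by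
  obtain ⟨k, h1, h2, h3, h4⟩ := (key_lt hc hd v w).1 h
  refine (key_lt hc hd _ _).2 ⟨k + (a.lv - b.lv), by rw [mv_lv]; omega, by rw [mv_lv]; omega,
    fun j hj => ?_, ?_⟩
  · rw [mv_ad _ _ _ (by rw [mv_lv]; omega), mv_ad _ _ _ (by rw [mv_lv]; omega),
      h3 _ (by omega)]
  · rw [mv_ad _ _ _ (by rw [mv_lv]; omega), mv_ad _ _ _ (by rw [mv_lv]; omega), mv_lv, mv_lv]
    have e : k + (a.lv - b.lv) - (a.lv - b.lv) = k := by ring
    rw [e]
    have e1 : (k + (a.lv - b.lv) = v.lv + (a.lv - b.lv)) ↔ k = v.lv := by constructor <;> intro <;> omega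
    have e2 : (k + (a.lv - b.lv) = w.lv + (a.lv - b.lv)) ↔ k = w.lv := by constructor <;> intro <;> omega
    simp only [e1, e2]
    rcases hc with rfl | rfl <;> linarith

/-- A child at level 0. -/
noncomputable def ch (i : ℤ) : Vx :=
  ⟨(0, Finsupp.single 0 i), by
    intro k hk
    exact Finsupp.single_eq_of_ne (by simp only at hk; omega)⟩

/-- A vertex at level 1. -/
noncomputable def rt : Vx := ⟨(1, 0), fun _ _ => rfl⟩

theorem ch_lv (i : ℤ) : (ch i).lv = 0 := rfl

theorem ch_ad (i : ℤ) : (ch i).ad 0 = i := by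
  show (Finsupp.single (0 : ℤ) i) 0 = i
  simp

theorem ch_ad' (i j k : ℤ) (hk : k < 0) : (ch i).ad k = (ch j).ad k := by
  show (Finsupp.single (0 : ℤ) i) k = (Finsupp.single (0 : ℤ) j) k
  rw [Finsupp.single_eq_of_ne (by omega), Finsupp.single_eq_of_ne (by omega)]

theorem rt_lv : rt.lv = 1 := rfl

theorem rt_ad (k : ℤ) : rt.ad k = 0 := rfl

theorem ch_ad0 (i k : ℤ) (hk : k < 0) : (ch i).ad k = 0 := by
  show (Finsupp.single (0 : ℤ) i) k = 0
  rw [Finsupp.single_eq_of_ne (by omega)]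

theorem rt_ch {K : ℕ} {i : ℤ} (h0 : 0 ≤ i) (h1 : i < K) :
    px rt < px (ch i) ∧ qx K rt < qx K (ch i) := by
  refine ne_intro (by rw [ch_lv, rt_lv]; norm_num) (fun j hj => ?_) ?_ ?_
  · rw [ch_lv] at hj
    rw [rt_ad, ch_ad0 _ _ hj]
  · rw [ch_lv, ch_ad, rt_ad]; exact h0
  · rw [ch_lv, ch_ad, rt_ad]; omega

theorem ch_ch (K : ℕ) {i j : ℤ} (h : i < j) :
    px (ch i) < px (ch j) ∧ qx K (ch j) < qx K (ch i) := by
  constructor
  · refine (key_lt (Or.inl rfl) (by norm_num) _ _).2
      ⟨0, by rw [ch_lv], by rw [ch_lv], fun k hk => ch_ad' _ _ _ hk, ?_⟩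
    rw [ch_lv, ch_lv, if_pos rfl, ch_ad, ch_ad]
    omega
  · refine (key_lt (Or.inr rfl) (hodd K) _ _).2
      ⟨0, by rw [ch_lv], by rw [ch_lv], fun k hk => ch_ad' _ _ _ hk, ?_⟩
    rw [ch_lv, ch_lv, if_pos rfl, ch_ad, ch_ad]
    omega

/-- The classes. -/
def Cls (K : ℕ) : Set Pm := Age px (qx K)

theorem cls_one (K : ℕ) : OneAmalgamable (Cls K) :=
  age_one px (qx K) (key_inj (Or.inl rfl) (by norm_num)) (key_inj (Or.inr rfl) (hodd K))
    fun a b => ⟨mv a b, mv_self a b, fun x y h => mv_key (Or.inl rfl) (by norm_num) a b x y h,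
      fun x y h => mv_key (Or.inr rfl) (hodd K) a b x y h⟩

theorem cls_split {K : ℕ} (hK : 2 ≤ K) : Splittable (Cls K) := by
  have hK0 : (0 : ℤ) < K := by omega
  refine age_split (r := K) (by omega) px (qx K) (key_inj (Or.inl rfl) (by norm_num))
    (key_inj (Or.inr rfl) (hodd K))
    (fun v => ⟨(v.ad v.lv % K).toNat, by
      have h1 := Int.emod_nonneg (v.ad v.lv) hK0.ne'
      have h2 := Int.emod_lt_of_pos (v.ad v.lv) hK0
      omega⟩) ?_ ?_
  · refine ⟨rt, ch 0, ch 1, (rt_ch le_rfl hK0).1, (ch_ch K (by norm_num)).1,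
      (rt_ch (by norm_num) (by omega)).2, (ch_ch K (by norm_num)).2⟩
  · intro z x y h1 h2 h3 h4 h5
    obtain ⟨a, b, c, d⟩ := level (by omega) h1 h2 h3 h4
    have h6 := Fin.mk.inj_iff.1 h5
    have n1 := Int.emod_nonneg (x.ad x.lv) hK0.ne'
    have n2 := Int.emod_nonneg (y.ad y.lv) hK0.ne'
    have h7 : x.ad x.lv % K = y.ad y.lv % K := by omega
    rw [← a] at h7
    have h8 : (K : ℤ) ∣ y.ad x.lv - x.ad x.lv := Int.ModEq.dvd h7
    have h9 := Int.le_of_dvd (by omega) h8
    omega

theorem cls_ne {K K' : ℕ} (hK : 1 ≤ K) (h : K < K') : ¬ Cls K' ⊆ Cls K := by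
  intro hs
  obtain ⟨α, e, he, he1, he2⟩ := exists_perm px (qx K')
    (key_inj (Or.inl rfl) (by norm_num)) (key_inj (Or.inr rfl) (hodd K'))
    (insert rt (Set.range fun i : Fin (K + 1) => ch i)) ((Set.finite_range _).insert _)
  have hα : α ∈ Cls K' := ⟨e, fun i j h => (he1 i j).1 h, fun i j h => (he2 i j).1 h⟩
  obtain ⟨e', h1, h2⟩ := hs hα
  have hz : rt ∈ Set.range e := by rw [he]; exact Or.inl rfl
  have hx : ∀ i : Fin (K + 1), ∃ k, e k = ch i := fun i => by
    have : ch i ∈ Set.range e := by rw [he]; exact Or.inr ⟨i, rfl⟩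
    exact this
  obtain ⟨iz, hiz⟩ := hz
  choose f hf using hx
  have p1 : ∀ i, px (e' iz) < px (e' (f i)) := fun i =>
    h1 _ _ ((he1 _ _).2 (by rw [hiz, hf]; exact (rt_ch (K := K') (by omega) (by have := i.2; omega)).1))
  have p2 : ∀ i, qx K (e' iz) < qx K (e' (f i)) := fun i =>
    h2 _ _ ((he2 _ _).2 (by rw [hiz, hf]; exact (rt_ch (K := K') (by omega) (by have := i.2; omega)).2))
  have p3 : ∀ i j, i < j → px (e' (f i)) < px (e' (f j)) := fun i j hij =>
    h1 _ _ ((he1 _ _).2 (by rw [hf, hf]; exact (ch_ch K' (by have : i.1 < j.1 := hij; omega)).1))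
  have p4 : ∀ i j, i < j → qx K (e' (f j)) < qx K (e' (f i)) := fun i j hij =>
    h2 _ _ ((he2 _ _).2 (by rw [hf, hf]; exact (ch_ch K' (by have : i.1 < j.1 := hij; omega)).2))
  have lev : ∀ i, (e' (f i)).lv = (e' (f 0)).lv := by
    intro i
    rcases Nat.eq_zero_or_pos i.1 with h0 | h0
    · rw [show i = 0 from Fin.ext h0]
    · have h0' : (0 : Fin (K + 1)) < i := h0
      exact (level hK (p1 0) (p3 _ _ h0') (p2 i) (p4 _ _ h0')).1.symm
  set m := (e' (f 0)).lv with hm
  have bd : ∀ i, (e' iz).ad m ≤ (e' (f i)).ad m ∧ (e' (f i)).ad m < (e' iz).ad m + K := by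
    intro i
    obtain ⟨_, _, a, b⟩ := ne_elim hK (p1 i) (p2 i)
    rw [lev i] at a b
    exact ⟨a, b⟩
  have inj : Function.Injective fun i : Fin (K + 1) =>
      (⟨((e' (f i)).ad m - (e' iz).ad m).toNat, by
        obtain ⟨a, b⟩ := bd i
        omega⟩ : Fin K) := by
    intro i j hij
    have hij' := Fin.mk.inj_iff.1 hij
    have e1 : (e' (f i)).ad m = (e' (f j)).ad m := by
      have := bd i
      have := bd j
      omega
    rcases lt_trichotomy i j with h0 | h0 | h0
    · have := (level hK (p1 i) (p3 _ _ h0) (p2 j) (p4 _ _ h0)).2.2.1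
      rw [lev i] at this
      omega
    · exact h0
    · have := (level hK (p1 j) (p3 _ _ h0) (p2 i) (p4 _ _ h0)).2.2.1
      rw [lev j] at this
      omega
  have := Fintype.card_le_of_injective _ inj
  simp at this

/-- **Q1 of MP_80b08f_co**: there are infinitely many permutation classes that are both
1-amalgamable and splittable. -/
theorem result : {C : Set Pm | IsClass C ∧ OneAmalgamable C ∧ Splittable C}.Infinite := by
  have hinj : Function.Injective fun K : ℕ => Cls (K + 2) := by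
    intro K K' h
    have h' : Cls (K + 2) = Cls (K' + 2) := h
    rcases lt_trichotomy K K' with h0 | h0 | h0
    · exact absurd (h'.symm ▸ subset_rfl : Cls (K' + 2) ⊆ Cls (K + 2))
        (cls_ne (by omega) (by omega))
    · exact h0
    · exact absurd (h' ▸ subset_rfl : Cls (K + 2) ⊆ Cls (K' + 2))
        (cls_ne (by omega) (by omega))
  refine (Set.infinite_range_of_injective hinj).mono ?_
  rintro _ ⟨K, rfl⟩
  exact ⟨age_class _ _, cls_one _, cls_split (by omega)⟩

end Pool.Agent.Results.MP_80b08f_co.InfinitelyMany
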